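import Mathlib

/-! A paracompact Hausdorff space without isolated points that is not base resolvable (in ZFC).

Idea. Nodes are finite sequences of digits; a digit is a pair `(A, κ)` with `A ⊆ ℕ × 2^ω` and `κ` a
set of labels from `W = ℕ ⊕ 2^ω`. The space consists of the legal branches together with a compact
connected piece for every pair (node, label). The neighbourhood `N p a` of a branch through `p`
holds all branches through `p` and all pieces `(q, τ)` with `q` extending `p`, `τ` a label that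
survives at `q` and `τ ∉ a`. The only small basic sets at a branch are the sets `B p η ξ`, which
avoid the labels `η` and `ξ` only. The combinatorial theorem `key` says that for every two-colouring
of the triples `(p, η, ξ)` there are a legal branch and a label `w` surviving along it such that all
the sets `B p η ξ` at the branch that avoid `w` get the same colour. -/

set_option autoImplicit false

namespace Pool.Agent.Results.MP_bab9cd_gt.NotBaseResolvable

open Set Topology PiNat

/-- The Cantor set, as a set of indices. -/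
abbrev Cantor : Type := ℕ → Bool

/-- The set of labels. -/
abbrev W : Type := ℕ ⊕ Cantor

/-- Digits. -/
abbrev Dig : Type := Set (ℕ × Cantor) × Set W

/-- Finite sequences of digits, last digit first. -/
abbrev Node : Type := List Dig

/-- The labels that survive along a node. -/
def kap : Node → Set W
  | [] => univ
  | d :: p => d.2 ∩ kap p

lemma kap_anti {p q : Node} (h : p <:+ q) : kap q ⊆ kap p := by
  obtain ⟨t, rfl⟩ := h
  induction t with
  | nil => simp
  | cons d t ih => exact fun x hx => ih hx.2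

/-- The branches that are points of the space. -/
def Legal (k : ℕ → Dig) : Prop :=
  ∀ g : Finset W, ∀ m : ℕ, ∃ n, m ≤ n ∧ ∃ z ∈ (k n).1,
    ∀ τ ∈ g, τ ∈ kap (res k n) → τ = Sum.inl z.1 ∨ τ = Sum.inr z.2

/-- The points of the space. -/
inductive X : Type
  | lim (k : ℕ → Dig) (hk : Legal k) : X
  | pc (q : Node) (τ : W) (t : unitInterval) : X

/-- The basic neighbourhoods. -/
def N (p : Node) (a : Finset W) : Set X :=
  {x | match x with
    | X.lim k _ => res k p.length = p
    | X.pc q τ _ => p <:+ q ∧ τ ∈ kap q ∧ τ ∉ a}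

@[simp] lemma lim_mem_N {p : Node} {a : Finset W} {k : ℕ → Dig} {hk : Legal k} :
    X.lim k hk ∈ N p a ↔ res k p.length = p := Iff.rfl

@[simp] lemma pc_mem_N {p : Node} {a : Finset W} {q : Node} {τ : W} {t : unitInterval} :
    X.pc q τ t ∈ N p a ↔ p <:+ q ∧ τ ∈ kap q ∧ τ ∉ a := Iff.rfl

lemma res_suffix (k : ℕ → Dig) {m n : ℕ} (h : m ≤ n) : res k m <:+ res k n := by
  induction n, h using Nat.le_induction with
  | base => exact List.suffix_refl _
  | succ n _ ih => exact ih.trans (by rw [res_succ]; exact List.suffix_cons _ _)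

lemma suffix_res {k : ℕ → Dig} {q : Node} {n : ℕ} (h : q <:+ res k n) : q = res k q.length := by
  have hl : q.length ≤ n := by simpa using h.length_le
  have h2 := res_suffix k hl
  have := List.suffix_of_suffix_length_le h h2 (by simp)
  exact List.IsSuffix.eq_of_length this (by simp)

lemma N_anti {p q : Node} {a b : Finset W} (h : p <:+ q) (hab : a ⊆ b) : N q b ⊆ N p a := by
  rintro (⟨k, hk⟩ | ⟨r, τ, t⟩)
  · intro hx
    rw [lim_mem_N] at hx ⊢
    rw [← hx] at h
    exact (suffix_res h).symm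
  · intro hx
    rw [pc_mem_N] at hx ⊢
    exact ⟨h.trans hx.1, hx.2.1, fun h' => hx.2.2 (hab h')⟩

instance : TopologicalSpace X where
  IsOpen U := (∀ q τ, IsOpen {t | X.pc q τ t ∈ U}) ∧
    ∀ k hk, X.lim k hk ∈ U → ∃ n, ∃ a : Finset W, N (res k n) a ⊆ U
  isOpen_univ := ⟨fun _ _ => by simp, fun _ _ _ => ⟨0, ∅, subset_univ _⟩⟩
  isOpen_inter := by
    classical
    rintro U V ⟨hU1, hU2⟩ ⟨hV1, hV2⟩
    refine ⟨fun q τ => (hU1 q τ).inter (hV1 q τ), fun k hk h => ?_⟩
    obtain ⟨n, a, ha⟩ := hU2 k hk h.1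
    obtain ⟨m, b, hb⟩ := hV2 k hk h.2
    refine ⟨max n m, a ∪ b, subset_inter ?_ ?_⟩
    · exact (N_anti (res_suffix k (le_max_left _ _)) Finset.subset_union_left).trans ha
    · exact (N_anti (res_suffix k (le_max_right _ _)) Finset.subset_union_right).trans hb
  isOpen_sUnion := by
    intro S hS
    refine ⟨fun q τ => ?_, fun k hk h => ?_⟩
    · have : {t | X.pc q τ t ∈ ⋃₀ S} = ⋃ U ∈ S, {t | X.pc q τ t ∈ U} := by
        ext t; simp
      rw [this]
      exact isOpen_biUnion fun U hU => (hS U hU).1 q τ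
    · obtain ⟨U, hU, hkU⟩ := h
      obtain ⟨n, a, ha⟩ := (hS U hU).2 k hk hkU
      exact ⟨n, a, ha.trans (subset_sUnion_of_mem hU)⟩

lemma isOpen_iff {U : Set X} : IsOpen U ↔ (∀ q τ, IsOpen {t | X.pc q τ t ∈ U}) ∧
    ∀ k hk, X.lim k hk ∈ U → ∃ n, ∃ a : Finset W, N (res k n) a ⊆ U := Iff.rfl

lemma isOpen_N (p : Node) (a : Finset W) : IsOpen (N p a) := by
  rw [isOpen_iff]
  refine ⟨fun q τ => ?_, fun k hk h => ⟨p.length, a, ?_⟩⟩
  · by_cases h : p <:+ q ∧ τ ∈ kap q ∧ τ ∉ a
    · have : {t | X.pc q τ t ∈ N p a} = univ := by ext t; simp [h]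
      rw [this]; exact isOpen_univ
    · have : {t | X.pc q τ t ∈ N p a} = ∅ := by
        ext t
        simp only [pc_mem_N, mem_ofPred_eq, mem_empty_iff_false, iff_false]
        exact h
      rw [this]; exact isOpen_empty
  · rw [lim_mem_N] at h
    rw [h]

/-- The open subset `O` of the piece with index `(q, τ)`. -/
def Pc (q : Node) (τ : W) (O : Set unitInterval) : Set X := X.pc q τ '' O

lemma isOpen_Pc {q : Node} {τ : W} {O : Set unitInterval} (hO : IsOpen O) :
    IsOpen (Pc q τ O) := by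
  rw [isOpen_iff]
  refine ⟨fun q' τ' => ?_, fun k hk h => ?_⟩
  · by_cases h : q' = q ∧ τ' = τ
    · obtain ⟨rfl, rfl⟩ := h
      convert hO using 1
      ext t
      simp [Pc]
    · convert isOpen_empty using 1
      ext t
      simp only [Pc, mem_image, X.pc.injEq, mem_ofPred_eq, mem_empty_iff_false, iff_false]
      rintro ⟨t, -, h1, h2, -⟩
      exact h ⟨h1.symm, h2.symm⟩
  · obtain ⟨t, -, ht⟩ := h
    cases ht

lemma disjoint_N {p q : Node} (a b : Finset W) (h1 : ¬ p <:+ q) (h2 : ¬ q <:+ p) :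
    Disjoint (N p a) (N q b) := by
  rw [Set.disjoint_left]
  rintro (⟨k, hk⟩ | ⟨r, τ, t⟩)
  · intro hp hq
    rw [lim_mem_N] at hp hq
    rcases le_total p.length q.length with h | h
    · exact h1 (by rw [← hp, ← hq]; exact res_suffix k h)
    · exact h2 (by rw [← hp, ← hq]; exact res_suffix k h)
  · intro hp hq
    rw [pc_mem_N] at hp hq
    rcases List.suffix_or_suffix_of_suffix hp.1 hq.1 with h | h
    · exact h1 h
    · exact h2 h

instance : T2Space X := by
  refine ⟨?_⟩
  have key1 : ∀ (k : ℕ → Dig) (hk : Legal k) (q : Node) (τ : W) (t : unitInterval),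
      ∃ U V : Set X, IsOpen U ∧ IsOpen V ∧ X.lim k hk ∈ U ∧ X.pc q τ t ∈ V ∧ Disjoint U V := by
    intro k hk q τ t
    refine ⟨N (res k (q.length + 1)) ∅, Pc q τ univ, isOpen_N _ _, isOpen_Pc isOpen_univ, ?_,
      ⟨t, mem_univ _, rfl⟩, ?_⟩
    · rw [lim_mem_N]; simp
    · rw [Set.disjoint_left]
      rintro x hx ⟨t', -, rfl⟩
      rw [pc_mem_N] at hx
      have := hx.1.length_le
      simp at this
  rintro (⟨k, hk⟩ | ⟨q, τ, t⟩) (⟨k', hk'⟩ | ⟨q', τ', t'⟩) hne
  · have hkk : k ≠ k' := by
      rintro rfl; exact hne rfl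
    have : ∃ n, res k n ≠ res k' n := by
      by_contra hcon
      push Not at hcon
      exact hkk (res_injective (funext hcon))
    obtain ⟨n, hn⟩ := this
    refine ⟨N (res k n) ∅, N (res k' n) ∅, isOpen_N _ _, isOpen_N _ _, by rw [lim_mem_N]; simp,
      by rw [lim_mem_N]; simp, disjoint_N _ _ (fun h => ?_) (fun h => ?_)⟩
    · exact hn (h.eq_of_length (by simp))
    · exact hn (h.eq_of_length (by simp)).symm
  · exact key1 k hk q' τ' t'
  · obtain ⟨U, V, hU, hV, h1, h2, h3⟩ := key1 k' hk' q τ t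
    exact ⟨V, U, hV, hU, h2, h1, h3.symm⟩
  · by_cases h : q = q' ∧ τ = τ'
    · obtain ⟨rfl, rfl⟩ := h
      have htt : t ≠ t' := by rintro rfl; exact hne rfl
      obtain ⟨U, V, hU, hV, h1, h2, h3⟩ := t2_separation htt
      refine ⟨Pc q τ U, Pc q τ V, isOpen_Pc hU, isOpen_Pc hV, ⟨t, h1, rfl⟩, ⟨t', h2, rfl⟩, ?_⟩
      rw [Set.disjoint_left]
      rintro x ⟨s, hs, rfl⟩ ⟨s', hs', he⟩
      cases he
      exact Set.disjoint_left.mp h3 hs hs'
    · refine ⟨Pc q τ univ, Pc q' τ' univ, isOpen_Pc isOpen_univ, isOpen_Pc isOpen_univ,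
        ⟨t, mem_univ _, rfl⟩, ⟨t', mem_univ _, rfl⟩, ?_⟩
      rw [Set.disjoint_left]
      rintro x ⟨s, hs, rfl⟩ ⟨s', hs', he⟩
      cases he
      exact h ⟨rfl, rfl⟩


lemma not_isOpen_singleton (x : X) : ¬ IsOpen ({x} : Set X) := by
  rcases x with ⟨k, hk⟩ | ⟨q, τ, t⟩
  · intro h
    obtain ⟨n, a, ha⟩ := (isOpen_iff.mp h).2 k hk rfl
    -- change the digit number `n`
    have hex : ∃ A : Set (ℕ × Cantor), A ≠ (k n).1 := by
      by_cases h0 : (k n).1 = ∅
      · exact ⟨univ, by rw [h0]; exact univ_nonempty.ne_empty⟩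
      · exact ⟨∅, fun h' => h0 h'.symm⟩
    obtain ⟨A, hA⟩ := hex
    classical
    let k' : ℕ → Dig := Function.update k n (A, (k n).2)
    have hk2 : ∀ j, (k' j).2 = (k j).2 := by
      intro j
      by_cases hj : j = n
      · subst hj; simp [k']
      · simp [k', Function.update_of_ne hj]
    have hkap : ∀ j, kap (res k' j) = kap (res k j) := by
      intro j
      induction j with
      | zero => rfl
      | succ j ih =>
        rw [res_succ, res_succ]
        simp only [kap, ih, hk2]
    have hres : res k' n = res k n := by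
      rw [res_eq_res]
      intro i hi
      simp [k', Function.update_of_ne (ne_of_lt hi)]
    have hleg : Legal k' := by
      intro g m
      obtain ⟨j, hj, z, hz, hg⟩ := hk g (max m (n + 1))
      refine ⟨j, le_trans (le_max_left _ _) hj, z, ?_, ?_⟩
      · have : j ≠ n := by
          have := le_trans (le_max_right _ _) hj
          omega
        simpa [k', Function.update_of_ne this] using hz
      · intro τ hτ h2
        rw [hkap] at h2
        exact hg τ hτ h2
    have hmem : X.lim k' hleg ∈ N (res k n) a := by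
      rw [lim_mem_N, res_length, hres]
    have := ha hmem
    rw [mem_singleton_iff] at this
    have h3 : k' = k := by injection this
    have h4 : (k' n).1 = (k n).1 := by rw [h3]
    simp [k'] at h4
    exact hA h4
  · intro h
    have h1 := (isOpen_iff.mp h).1 q τ
    have h2 : {s | X.pc q τ s ∈ ({X.pc q τ t} : Set X)} = {t} := by
      ext s
      simp
    rw [h2] at h1
    have h3 : IsClopen ({t} : Set unitInterval) := ⟨isClosed_singleton, h1⟩
    rcases isClopen_iff.mp h3 with h4 | h4
    · exact (singleton_nonempty t).ne_empty h4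
    · have h5 : (0 : unitInterval) ∈ ({t} : Set unitInterval) := h4 ▸ mem_univ _
      have h6 : (1 : unitInterval) ∈ ({t} : Set unitInterval) := h4 ▸ mem_univ _
      rw [mem_singleton_iff] at h5 h6
      exact zero_ne_one (h5.trans h6.symm)

instance : ParacompactSpace X := by
  classical
  refine ⟨fun α s hs hcov => ?_⟩
  let Good : Node → Prop := fun p => ∃ a : Finset W, ∃ i, N p a ⊆ s i
  let Min : Node → Prop := fun p => Good p ∧ ∀ q, q <:+ p → Good q → q = p
  have hGood : ∀ k (hk : Legal k), ∃ n, Good (res k n) := by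
    intro k hk
    have : X.lim k hk ∈ ⋃ i, s i := by rw [hcov]; trivial
    obtain ⟨i, hi⟩ := mem_iUnion.mp this
    obtain ⟨n, a, ha⟩ := (isOpen_iff.mp (hs i)).2 k hk hi
    exact ⟨n, a, i, ha⟩
  have hMin : ∀ k (hk : Legal k), ∃ n, Min (res k n) := by
    intro k hk
    have hex := hGood k hk
    refine ⟨Nat.find hex, Nat.find_spec hex, fun q hq hgq => ?_⟩
    have h1 := suffix_res hq
    have h2 : ¬ q.length < Nat.find hex := by
      intro hlt
      exact Nat.find_min hex hlt (by rw [← h1]; exact hgq)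
    have h3 : q.length ≤ Nat.find hex := by simpa using hq.length_le
    exact hq.eq_of_length (by simp; omega)
  have hMinEq : ∀ p q, Min p → Min q → (p <:+ q ∨ q <:+ p) → p = q := by
    intro p q hp hq h
    rcases h with h | h
    · exact hq.2 p h hp.1
    · exact (hp.2 q h hq.1).symm
  have hch : ∀ p : {p // Min p}, ∃ a : Finset W, ∃ i, N p.1 a ⊆ s i := fun p => p.2.1
  choose a i hai using hch
  -- finitely many indices for every piece
  have hfin : ∀ z : Node × W, ∃ F : Finset α, ∀ t, ∃ j ∈ F, X.pc z.1 z.2 t ∈ s j := by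
    intro z
    have hc : IsCompact (univ : Set unitInterval) := isCompact_univ
    obtain ⟨F, hF⟩ := hc.elim_finite_subcover (fun j => {t | X.pc z.1 z.2 t ∈ s j})
      (fun j => (isOpen_iff.mp (hs j)).1 z.1 z.2) (by
        intro t _
        have : X.pc z.1 z.2 t ∈ ⋃ i, s i := by rw [hcov]; trivial
        obtain ⟨j, hj⟩ := mem_iUnion.mp this
        exact mem_iUnion.mpr ⟨j, hj⟩)
    refine ⟨F, fun t => ?_⟩
    have := hF (mem_univ t)
    simp only [mem_iUnion] at this
    obtain ⟨j, hj, h⟩ := this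
    exact ⟨j, hj, h⟩
  choose F hF using hfin
  let cov : Node × W → Prop := fun z =>
    ∃ p : {p // Min p}, p.1 <:+ z.1 ∧ z.2 ∈ kap z.1 ∧ z.2 ∉ a p
  let u : ({p // Min p} ⊕ (Σ z : Node × W, {j // j ∈ F z})) → Set X := fun b =>
    match b with
    | Sum.inl p => N p.1 (a p)
    | Sum.inr ⟨z, j⟩ => if cov z then ∅ else Pc z.1 z.2 {t | X.pc z.1 z.2 t ∈ s j.1}
  have hopen : ∀ b, IsOpen (u b) := by
    rintro (p | ⟨z, j⟩)
    · exact isOpen_N _ _
    · by_cases h : cov z
      · simp [u, h]
      · simp only [u, h, if_false]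
        exact isOpen_Pc ((isOpen_iff.mp (hs j.1)).1 z.1 z.2)
  have hcovers : ⋃ b, u b = univ := by
    refine eq_univ_of_forall ?_
    rintro (⟨k, hk⟩ | ⟨q, τ, t⟩)
    · obtain ⟨n, hn⟩ := hMin k hk
      refine mem_iUnion.mpr ⟨Sum.inl ⟨res k n, hn⟩, ?_⟩
      show X.lim k hk ∈ N (res k n) _
      rw [lim_mem_N, res_length]
    · by_cases h : cov (q, τ)
      · obtain ⟨p, hp⟩ := h
        exact mem_iUnion.mpr ⟨Sum.inl p, hp⟩
      · obtain ⟨j, hj, hjt⟩ := hF (q, τ) t
        refine mem_iUnion.mpr ⟨Sum.inr ⟨(q, τ), ⟨j, hj⟩⟩, ?_⟩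
        simp only [u, h, if_false]
        exact ⟨t, hjt, rfl⟩
  refine ⟨_, u, hopen, hcovers, ?_, ?_⟩
  · rintro (⟨k, hk⟩ | ⟨q, τ, t⟩)
    · obtain ⟨n, hn⟩ := hMin k hk
      refine ⟨N (res k n) (a ⟨res k n, hn⟩), (isOpen_N _ _).mem_nhds (by
        rw [lim_mem_N, res_length]), ?_⟩
      refine (finite_singleton (Sum.inl ⟨res k n, hn⟩)).subset ?_
      rintro (p | ⟨z, j⟩) ⟨x, hx1, hx2⟩
      · rw [mem_singleton_iff]
        congr 1
        apply Subtype.ext
        apply hMinEq _ _ p.2 hn
        by_contra hcon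
        push Not at hcon
        exact Set.disjoint_left.mp (disjoint_N _ _ hcon.1 hcon.2) hx1 hx2
      · exfalso
        by_cases h : cov z
        · simp [u, h] at hx1
        · simp only [u, h, if_false] at hx1
          obtain ⟨t, -, rfl⟩ := hx1
          exact h ⟨⟨res k n, hn⟩, hx2⟩
    · refine ⟨Pc q τ univ, (isOpen_Pc isOpen_univ).mem_nhds ⟨t, mem_univ _, rfl⟩, ?_⟩
      have hsub : {b | (u b ∩ Pc q τ univ).Nonempty} ⊆
          (Sum.inl '' {p : {p // Min p} | p.1 <:+ q}) ∪
          ((fun j => Sum.inr ⟨(q, τ), j⟩) '' (univ : Set {j // j ∈ F (q, τ)})) := by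
        rintro (p | ⟨z, j⟩) ⟨x, hx1, ⟨t', -, rfl⟩⟩
        · left
          exact ⟨p, hx1.1, rfl⟩
        · right
          by_cases h : cov z
          · simp [u, h] at hx1
          · simp only [u, h, if_false] at hx1
            obtain ⟨t'', -, he⟩ := hx1
            obtain ⟨z1, z2⟩ := z
            simp only at he
            injection he with h1 h2
            subst h1 h2
            exact ⟨j, mem_univ _, rfl⟩
      refine Set.Finite.subset (Set.Finite.union ?_ ?_) hsub
      · apply Set.Finite.image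
        apply Set.Subsingleton.finite
        intro p hp p' hp'
        apply Subtype.ext
        exact hMinEq _ _ p.2 p'.2 (List.suffix_or_suffix_of_suffix hp hp')
      · exact (Set.toFinite _).image _
  · rintro (p | ⟨z, j⟩)
    · exact ⟨i p, hai p⟩
    · refine ⟨j.1, ?_⟩
      by_cases h : cov z
      · simp [u, h]
      · simp only [u, h, if_false]
        rintro x ⟨t, ht, rfl⟩
        exact ht


/-- The remaining numbers. -/
def P (e M : ℕ) : Set ℕ := {η | η = e ∨ M ≤ η}

/-- The remaining elements of the Cantor set. -/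
def Q (σ : List Bool) (Z : Set Cantor) : Set Cantor := {ξ | res ξ σ.length = σ ∧ ξ ∉ Z}

/-- The surviving labels. -/
def KP (σ : List Bool) (e M : ℕ) (Z : Set Cantor) : Set W :=
  Sum.inl '' P e M ∪ Sum.inr '' Q σ Z

/-- States of the recursive construction. -/
structure St where
  p : Node
  e : ℕ
  M : ℕ
  Z : Set Cantor
  he : e < M
  hZ : Z.Countable

/-- The first alternative of the construction. -/
def CondI (c : Node → ℕ → Cantor → Prop) (σ : List Bool) (s : St) : Prop :=
  ∃ η ∈ P s.e s.M, {ξ | ξ ∈ Q σ s.Z ∧ c s.p η ξ}.Countable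

/-- What a step of the construction does. -/
structure Spec (c : Node → ℕ → Cantor → Prop) (σ : List Bool) (s : St)
    (A : Set (ℕ × Cantor)) (e' M' : ℕ) (Z' : Set Cantor) : Prop where
  he : e' < M'
  hM : s.M < M'
  hZ : Z'.Countable
  hsub : s.Z ⊆ Z'
  hP : e' = s.e ∨ s.M ≤ e'
  h1 : CondI c σ s → ∃ η ∈ P s.e s.M, η < e' ∧ s.M < e' ∧
    (∀ z ∈ A, z.1 = η ∧ (z.2 ∉ Z' → ¬ c s.p z.1 z.2)) ∧
    (∀ ξ ∈ Q σ s.Z, ξ ∉ Z' → (η, ξ) ∈ A)
  h2 : ¬ CondI c σ s → e' = s.e ∧ (∀ η ∈ P s.e s.M, ∃ ξ, (η, ξ) ∈ A) ∧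
    (∀ z ∈ A, c s.p z.1 z.2 ∧ z.2 ∈ Q σ s.Z)
  h3 : ∀ z ∈ A, z.2 ∈ Z' → ¬ CondI c σ s
  h4 : ∀ z ∈ A, ¬ CondI c σ s → z.2 ∈ Z'

lemma exists_step (c : Node → ℕ → Cantor → Prop) (σ : List Bool) (s : St) :
    ∃ (A : Set (ℕ × Cantor)) (e' M' : ℕ) (Z' : Set Cantor), Spec c σ s A e' M' Z' := by
  by_cases h : CondI c σ s
  · obtain ⟨η, hη, hc⟩ := h
    refine ⟨{z | z.1 = η ∧ z.2 ∈ Q σ s.Z ∧ ¬ c s.p η z.2}, max s.M η + 1, max s.M η + 2,
      s.Z ∪ {ξ | ξ ∈ Q σ s.Z ∧ c s.p η ξ}, ?_⟩
    refine ⟨by omega, by omega, s.hZ.union hc, subset_union_left, Or.inr (by omega), ?_, ?_, ?_, ?_⟩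
    · intro _
      refine ⟨η, hη, by omega, by omega, ?_, ?_⟩
      · rintro ⟨x, ξ⟩ ⟨h1, h2, h3⟩
        simp only at h1 h2 h3
        subst h1
        exact ⟨rfl, fun _ => h3⟩
      · intro ξ h1 h2
        refine ⟨rfl, h1, fun h3 => h2 (Or.inr ⟨h1, h3⟩)⟩
    · intro h; exact absurd ⟨η, hη, hc⟩ h
    · rintro ⟨x, ξ⟩ ⟨h1, h2, h3⟩ (h4 | h4)
      · exact absurd h4 h2.2
      · exact absurd h4.2 h3
    · intro z _ h; exact absurd ⟨η, hη, hc⟩ h
  · have h' : ∀ η ∈ P s.e s.M, ∃ ξ, ξ ∈ Q σ s.Z ∧ c s.p η ξ := by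
      intro η hη
      by_contra hcon
      apply h
      refine ⟨η, hη, ?_⟩
      have : {ξ | ξ ∈ Q σ s.Z ∧ c s.p η ξ} = ∅ := by
        ext ξ
        simp only [mem_ofPred_eq, mem_empty_iff_false, iff_false]
        exact fun h => hcon ⟨ξ, h⟩
      rw [this]
      exact countable_empty
    choose! f hf using h'
    refine ⟨{z | z.1 ∈ P s.e s.M ∧ z.2 = f z.1}, s.e, s.M + 1, s.Z ∪ range f, ?_⟩
    refine ⟨by have := s.he; omega, by omega, s.hZ.union (countable_range f), subset_union_left,
      Or.inl rfl, fun h' => absurd h' h, ?_, fun _ _ _ => h, ?_⟩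
    · intro _
      refine ⟨rfl, fun η hη => ⟨f η, hη, rfl⟩, ?_⟩
      rintro ⟨x, ξ⟩ ⟨h1, h2⟩
      simp only at h1 h2
      subst h2
      exact ⟨(hf x h1).2, (hf x h1).1⟩
    · rintro ⟨x, ξ⟩ ⟨h1, h2⟩ _
      exact Or.inr ⟨x, h2.symm⟩


lemma exists_res_eq (τ : List Bool) : ∃ y : Cantor, res y τ.length = τ := by
  induction τ with
  | nil => exact ⟨fun _ => false, rfl⟩
  | cons b τ ih =>
    obtain ⟨y, hy⟩ := ih
    refine ⟨Function.update y τ.length b, ?_⟩
    rw [List.length_cons, res_succ]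
    congr 1
    · simp
    · rw [← hy, res_length, res_eq_res]
      intro i hi
      simp [Function.update_of_ne (ne_of_lt hi)]

lemma exists_branch (Z : Set Cantor) (hZ : Z.Countable) (D : List Bool → Prop)
    (hD : ∀ σ, ∃ τ, σ <:+ τ ∧ D τ) : ∃ x : Cantor, x ∉ Z ∧ ∀ m, ∃ n, m ≤ n ∧ D (res x n) := by
  have : Countable Z := hZ.to_subtype
  let U : ℕ ⊕ Z → Set Cantor := fun i =>
    match i with
    | Sum.inl m => {x | ∃ n, m ≤ n ∧ D (res x n)}
    | Sum.inr z => {z.1}ᶜ
  have hopen : ∀ i, IsOpen (U i) := by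
    rintro (m | z)
    · rw [isOpen_iff_forall_mem_open]
      rintro x ⟨n, hmn, hn⟩
      refine ⟨cylinder x n, fun y hy => ⟨n, hmn, ?_⟩, isOpen_cylinder _ _ _, self_mem_cylinder _ _⟩
      rw [cylinder_eq_res] at hy
      rw [show res y n = res x n from hy]
      exact hn
    · exact isOpen_compl_singleton
  have hdense : ∀ i, Dense (U i) := by
    intro i
    rw [(isTopologicalBasis_cylinders (fun _ : ℕ => Bool)).dense_iff]
    rintro o ⟨x, n, rfl⟩ -
    rcases i with m | z
    · obtain ⟨τ, hτ, hDτ⟩ := hD (res x (max n m))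
      obtain ⟨y, hy⟩ := exists_res_eq τ
      have hl : max n m ≤ τ.length := by simpa using hτ.length_le
      have h1 : res y (max n m) = res x (max n m) := by
        have h2 : res y (max n m) <:+ τ := by
          rw [← hy]
          clear hy
          generalize τ.length = l at hl
          induction l, hl using Nat.le_induction with
          | base => exact List.suffix_refl _
          | succ l _ ih => exact ih.trans (by rw [res_succ]; exact List.suffix_cons _ _)
        have h3 := List.suffix_of_suffix_length_le h2 hτ (by simp)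
        exact h3.eq_of_length (by simp)
      refine ⟨y, ?_, ⟨τ.length, le_trans (le_max_right _ _) hl, by rw [hy]; exact hDτ⟩⟩
      rw [res_eq_res] at h1
      intro i hi
      exact h1 (lt_of_lt_of_le hi (le_max_left _ _))
    · by_cases hxz : x = z.1
      · refine ⟨Function.update x n (!(x n)), ?_, ?_⟩
        · intro i hi
          simp [Function.update_of_ne (ne_of_lt hi)]
        · intro h
          have h' : Function.update x n (!(x n)) = z.1 := h
          rw [← hxz] at h'
          have := congrFun h' n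
          simp at this
      · exact ⟨x, self_mem_cylinder _ _, hxz⟩
  have hd := dense_iInter_of_isOpen hopen hdense
  obtain ⟨x, hx⟩ := hd.nonempty
  rw [mem_iInter] at hx
  refine ⟨x, fun hxZ => hx (Sum.inr ⟨x, hxZ⟩) rfl, fun m => hx (Sum.inl m)⟩

/-- For every two-colouring `c` there are a legal branch `k` and a label `w` surviving along `k` such
that all the triples on `k` that involve `w` have the same colour. -/
theorem key (c : Node → ℕ → Cantor → Prop) : ∃ k : ℕ → Dig, Legal k ∧ ∃ w : W,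
    (∀ n, w ∈ kap (res k n)) ∧
    ((∀ n, ∀ z ∈ (k n).1, (w = Sum.inl z.1 ∨ w = Sum.inr z.2) → c (res k n) z.1 z.2) ∨
     (∀ n, ∀ z ∈ (k n).1, (w = Sum.inl z.1 ∨ w = Sum.inr z.2) → ¬ c (res k n) z.1 z.2)) := by
  have hex := exists_step c
  choose A e' M' Z' hs using hex
  let nxt : Bool → List Bool → St → St := fun b σ s =>
    ⟨(A σ s, KP (b :: σ) (e' σ s) (M' σ s) (Z' σ s)) :: s.p, e' σ s, M' σ s, Z' σ s,
      (hs σ s).he, (hs σ s).hZ⟩
  let st : List Bool → St := fun σ =>
    List.rec ⟨[], 0, 1, ∅, by omega, countable_empty⟩ (fun b σ s => nxt b σ s) σ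
  have st0 : st [] = ⟨[], 0, 1, ∅, by omega, countable_empty⟩ := rfl
  have st1 : ∀ b σ, st (b :: σ) = nxt b σ (st σ) := fun _ _ => rfl
  -- facts on the survivors
  have hPsub : ∀ b σ, P (st (b :: σ)).e (st (b :: σ)).M ⊆ P (st σ).e (st σ).M := by
    intro b σ η hη
    rw [st1] at hη
    have h := hs σ (st σ)
    rcases hη with hη | hη
    · rcases h.hP with h' | h'
      · left; exact hη.trans h'
      · right; exact le_trans h' (le_of_eq hη.symm)
    · right; exact le_trans h.hM.le hη
  have hQsub : ∀ b σ, Q (b :: σ) (st (b :: σ)).Z ⊆ Q σ (st σ).Z := by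
    intro b σ ξ hξ
    rw [st1] at hξ
    refine ⟨?_, fun h => hξ.2 ((hs σ (st σ)).hsub h)⟩
    have := hξ.1
    rw [List.length_cons, res_succ] at this
    exact (List.cons.inj this).2
  have hkap : ∀ σ, kap (st σ).p = KP σ (st σ).e (st σ).M (st σ).Z := by
    intro σ
    induction σ with
    | nil =>
      rw [st0]
      ext (η | ξ)
      · simp only [kap, KP, P, mem_univ, mem_union, mem_image, mem_ofPred_eq, true_iff]
        left
        exact ⟨η, by omega, rfl⟩
      · simp only [kap, KP, Q, mem_univ, mem_union, mem_image, mem_ofPred_eq, true_iff]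
        right
        exact ⟨ξ, ⟨rfl, by simp⟩, rfl⟩
    | cons b σ ih =>
      have h1 : kap (st (b :: σ)).p =
        KP (b :: σ) (st (b :: σ)).e (st (b :: σ)).M (st (b :: σ)).Z ∩ kap (st σ).p := rfl
      rw [h1, ih]
      apply inter_eq_left.mpr
      rintro w (⟨η, hη, rfl⟩ | ⟨ξ, hξ, rfl⟩)
      · exact Or.inl ⟨η, hPsub b σ hη, rfl⟩
      · exact Or.inr ⟨ξ, hQsub b σ hξ, rfl⟩
  have hMlen : ∀ σ, σ.length < (st σ).M := by
    intro σ
    induction σ with
    | nil => simp [st0]
    | cons b σ ih =>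
      have h1 : (st (b :: σ)).M = M' σ (st σ) := rfl
      have := (hs σ (st σ)).hM
      simp only [List.length_cons]
      omega
  have hPmono : ∀ σ τ, σ <:+ τ → P (st τ).e (st τ).M ⊆ P (st σ).e (st σ).M := by
    rintro σ τ ⟨t, rfl⟩
    induction t with
    | nil => exact subset_rfl
    | cons b t ih => exact (hPsub b (t ++ σ)).trans ih
  have hZmono : ∀ σ τ, σ <:+ τ → (st σ).Z ⊆ (st τ).Z := by
    rintro σ τ ⟨t, rfl⟩
    induction t with
    | nil => exact subset_rfl
    | cons b t ih => exact ih.trans (hs (t ++ σ) (st (t ++ σ))).hsub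
  -- branches
  let k : Cantor → ℕ → Dig := fun x n =>
    (A (res x n) (st (res x n)), KP (res x (n + 1)) (st (res x (n + 1))).e
      (st (res x (n + 1))).M (st (res x (n + 1))).Z)
  have hresk : ∀ x n, res (k x) n = (st (res x n)).p := by
    intro x n
    induction n with
    | zero => rfl
    | succ n ih => rw [res_succ, ih]; rfl
  have hrs : ∀ (x : Cantor) {m n : ℕ}, m ≤ n → res x m <:+ res x n := by
    intro x m n h
    induction n, h using Nat.le_induction with
    | base => exact List.suffix_refl _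
    | succ n _ ih => exact ih.trans (by rw [res_succ]; exact List.suffix_cons _ _)
  have he_mem : ∀ σ, (st σ).e ∈ P (st σ).e (st σ).M := fun σ => Or.inl rfl
  have hQne : ∀ (x ξ : Cantor), ξ ≠ x → ∀ᶠ n in Filter.atTop,
      ξ ∉ Q (res x n) (st (res x n)).Z := by
    intro x ξ hne
    have : ∃ i, ξ i ≠ x i := by
      by_contra hcon
      push Not at hcon
      exact hne (funext hcon)
    obtain ⟨i, hi⟩ := this
    filter_upwards [Filter.eventually_gt_atTop i] with n hn h
    have h1 := h.1
    rw [res_length, res_eq_res] at h1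
    exact hi (h1 hn)
  by_cases hcase : ∀ σ, ∃ τ, σ <:+ τ ∧ CondI c τ (st τ)
  · -- Case A
    obtain ⟨x, hxZ, hx⟩ := exists_branch (⋃ σ, (st σ).Z) (countable_iUnion fun σ => (st σ).hZ)
      (fun τ => CondI c τ (st τ)) hcase
    have hxQ : ∀ n, x ∈ Q (res x n) (st (res x n)).Z := by
      intro n
      exact ⟨by rw [res_length], fun h => hxZ (mem_iUnion.mpr ⟨_, h⟩)⟩
    have hfreq : ∃ᶠ n in Filter.atTop, CondI c (res x n) (st (res x n)) := by
      rw [Filter.frequently_atTop]
      intro m
      obtain ⟨n, h1, h2⟩ := hx m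
      exact ⟨n, h1, h2⟩
    have hPev : ∀ η : ℕ, ∀ᶠ n in Filter.atTop,
        η ∉ P (st (res x n)).e (st (res x n)).M := by
      intro η
      obtain ⟨n, hn, hc⟩ := hx η
      obtain ⟨η0, -, h1, h2, -⟩ := (hs (res x n) (st (res x n))).h1 hc
      filter_upwards [Filter.eventually_ge_atTop (n + 1)] with j hj h
      have h3 := hPmono _ _ (hrs x hj) h
      have h4 := hMlen (res x n)
      have h5 : (st (res x (n + 1))).e = e' (res x n) (st (res x n)) := rfl
      have h6 := (st (res x (n + 1))).he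
      rw [res_length] at h4
      rcases h3 with h3 | h3 <;> omega
    refine ⟨k x, ?_, Sum.inr x, ?_, Or.inr ?_⟩
    · intro g m
      have hev : ∀ᶠ n in Filter.atTop, ∀ τ ∈ g, τ ∈ kap (res (k x) n) → τ = Sum.inr x := by
        rw [Filter.eventually_all_finset]
        rintro (η | ξ) -
        · filter_upwards [hPev η] with n hn h
          rw [hresk, hkap] at h
          rcases h with ⟨η', h1, h2⟩ | ⟨ξ', h1, h2⟩
          · cases h2; exact absurd h1 hn
          · cases h2
        · by_cases hξ : ξ = x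
          · subst hξ; exact Filter.Eventually.of_forall fun _ _ => rfl
          · filter_upwards [hQne x ξ hξ] with n hn h
            rw [hresk, hkap] at h
            rcases h with ⟨η', h1, h2⟩ | ⟨ξ', h1, h2⟩
            · cases h2
            · cases h2; exact absurd h1 hn
      obtain ⟨n, hn1, hn2, hn3⟩ :=
        (hfreq.and_eventually (hev.and (Filter.eventually_ge_atTop m))).exists
      obtain ⟨η0, -, -, -, -, h4⟩ := (hs (res x n) (st (res x n))).h1 hn1
      refine ⟨n, hn3, (η0, x), ?_, fun τ h1 h2 => Or.inr (hn2 τ h1 h2)⟩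
      exact h4 x (hxQ n) (hxQ (n + 1)).2
    · intro n
      rw [hresk, hkap]
      exact Or.inr ⟨x, hxQ n, rfl⟩
    · intro n z hz hw
      rcases hw with hw | hw
      · cases hw
      · have hz2 : z.2 = x := (Sum.inr.inj hw).symm
        have hz' : z ∈ A (res x n) (st (res x n)) := hz
        have hnot : z.2 ∉ Z' (res x n) (st (res x n)) := by
          rw [hz2]; exact (hxQ (n + 1)).2
        by_cases hc : CondI c (res x n) (st (res x n))
        · obtain ⟨η0, -, -, -, h3, -⟩ := (hs (res x n) (st (res x n))).h1 hc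
          rw [hresk]
          exact (h3 z hz').2 hnot
        · exact absurd ((hs (res x n) (st (res x n))).h4 z hz' hc) hnot
  · -- Case B
    push Not at hcase
    obtain ⟨σ, hσ⟩ := hcase
    obtain ⟨-, hA1, hA2⟩ := (hs σ (st σ)).h2 (hσ σ (List.suffix_refl _))
    obtain ⟨y, hy⟩ := hA1 _ (he_mem σ)
    have hyQ : y ∈ Q σ (st σ).Z := (hA2 _ hy).2
    have hyZ : y ∈ Z' σ (st σ) := (hs σ (st σ)).h4 _ hy (hσ σ (List.suffix_refl _))
    have hyσ : res y σ.length = σ := hyQ.1
    have hnc : ∀ n, σ.length ≤ n → ¬ CondI c (res y n) (st (res y n)) := by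
      intro n hn
      exact hσ _ (by have := hrs y hn; rwa [hyσ] at this)
    have hen : ∀ n, σ.length ≤ n → (st (res y n)).e = (st σ).e := by
      intro n hn
      induction n, hn using Nat.le_induction with
      | base => rw [hyσ]
      | succ n hn ih =>
        have h1 : (st (res y (n + 1))).e = e' (res y n) (st (res y n)) := rfl
        rw [h1, ((hs (res y n) (st (res y n))).h2 (hnc n hn)).1, ih]
    have hyn : ∀ n, σ.length < n → y ∈ (st (res y n)).Z := by
      intro n hn
      have h1 := hZmono _ _ (hrs y (Nat.succ_le_of_lt hn))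
      apply h1
      have h2 : (st (res y σ.length.succ)).Z = Z' (res y σ.length) (st (res y σ.length)) := rfl
      rw [h2, hyσ]
      exact hyZ
    have hewP : ∀ n, (st σ).e ∈ P (st (res y n)).e (st (res y n)).M := by
      intro n
      rcases le_total σ.length n with h | h
      · left; exact (hen n h).symm
      · have h1 := hPmono _ _ (hrs y h)
        rw [hyσ] at h1
        exact h1 (he_mem σ)
    refine ⟨k y, ?_, Sum.inl (st σ).e, ?_, Or.inl ?_⟩
    · intro g m
      have hev : ∀ᶠ n in Filter.atTop, ∀ τ ∈ g, τ ∈ kap (res (k y) n) →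
          τ = Sum.inl (st σ).e := by
        rw [Filter.eventually_all_finset]
        rintro (η | ξ) -
        · filter_upwards [Filter.eventually_ge_atTop (max η σ.length)] with n hn h
          rw [hresk, hkap] at h
          rcases h with ⟨η', h1, h2⟩ | ⟨ξ', h1, h2⟩
          · cases h2
            rcases h1 with h1 | h1
            · rw [h1, hen n (le_trans (le_max_right _ _) hn)]
            · have h2 := hMlen (res y n)
              rw [res_length] at h2
              have h3 := le_trans (le_max_left _ _) hn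
              omega
          · cases h2
        · by_cases hξ : ξ = y
          · subst hξ
            filter_upwards [Filter.eventually_gt_atTop σ.length] with n hn h
            rw [hresk, hkap] at h
            rcases h with ⟨η', h1, h2⟩ | ⟨ξ', h1, h2⟩
            · cases h2
            · cases h2
              exact absurd (hyn n hn) h1.2
          · filter_upwards [hQne y ξ hξ] with n hn h
            rw [hresk, hkap] at h
            rcases h with ⟨η', h1, h2⟩ | ⟨ξ', h1, h2⟩
            · cases h2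
            · cases h2; exact absurd h1 hn
      obtain ⟨n, hn1, hn2, hn3⟩ := (hev.and ((Filter.eventually_ge_atTop m).and
        (Filter.eventually_ge_atTop σ.length))).exists
      obtain ⟨-, h5, -⟩ := (hs (res y n) (st (res y n))).h2 (hnc n hn3)
      obtain ⟨ξ, hξ⟩ := h5 _ (hewP n)
      exact ⟨n, hn2, ((st σ).e, ξ), hξ, fun τ h1 h2 => Or.inl (hn1 τ h1 h2)⟩
    · intro n
      rw [hresk, hkap]
      exact Or.inl ⟨_, hewP n, rfl⟩
    · intro n z hz hw
      rcases hw with hw | hw
      · have hz1 : z.1 = (st σ).e := (Sum.inl.inj hw).symm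
        have hz' : z ∈ A (res y n) (st (res y n)) := hz
        by_cases hc : CondI c (res y n) (st (res y n))
        · exfalso
          have hn : n < σ.length := by
            by_contra hcon
            exact hnc n (not_lt.mp hcon) hc
          obtain ⟨η0, -, h1, h2, h3, -⟩ := (hs (res y n) (st (res y n))).h1 hc
          have h4 := (h3 z hz').1
          have h5 := hPmono _ _ (hrs y (Nat.succ_le_of_lt hn))
          rw [hyσ] at h5
          have h6 := h5 (he_mem σ)
          have h7 : (st (res y n.succ)).e = e' (res y n) (st (res y n)) := rfl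
          have h8 := (st (res y n.succ)).he
          rcases h6 with h6 | h6 <;> omega
        · rw [hresk]
          exact (((hs (res y n) (st (res y n))).h2 hc).2.2 z hz').1
      · cases hw


open Classical in
/-- The basic sets at the branches. -/
def B (p : Node) (η : ℕ) (ξ : Cantor) : Set X :=
  {x | ∃ d : Dig, (η, ξ) ∈ d.1 ∧ x ∈ N (d :: p) {Sum.inl η, Sum.inr ξ}}

lemma isOpen_B (p : Node) (η : ℕ) (ξ : Cantor) : IsOpen (B p η ξ) := by
  classical
  have : B p η ξ = ⋃ d : {d : Dig // (η, ξ) ∈ d.1}, N (d.1 :: p) {Sum.inl η, Sum.inr ξ} := by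
    ext x
    simp only [B, mem_ofPred_eq, mem_iUnion, Subtype.exists, exists_prop]
  rw [this]
  exact isOpen_iUnion fun d => isOpen_N _ _

/-- The non-resolvable base. -/
def Base : Set (Set X) :=
  {V | (∃ q τ O, IsOpen O ∧ V = Pc q τ O) ∨ ∃ p η ξ, V = B p η ξ}

lemma isBasis : TopologicalSpace.IsTopologicalBasis Base := by
  apply TopologicalSpace.isTopologicalBasis_of_isOpen_of_nhds
  · rintro V (⟨q, τ, O, hO, rfl⟩ | ⟨p, η, ξ, rfl⟩)
    · exact isOpen_Pc hO
    · exact isOpen_B p η ξ
  · rintro (⟨k, hk⟩ | ⟨q, τ, t⟩) U hx hU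
    · obtain ⟨m, g, hg⟩ := (isOpen_iff.mp hU).2 k hk hx
      obtain ⟨n, hn, z, hz, hgz⟩ := hk g m
      refine ⟨B (res k n) z.1 z.2, Or.inr ⟨_, _, _, rfl⟩, ⟨k n, hz, ?_⟩, ?_⟩
      · rw [lim_mem_N, List.length_cons, res_length, res_succ]
      · refine Subset.trans ?_ hg
        rintro x ⟨d, hd, hxd⟩
        have hsuf : res k m <:+ d :: res k n := (res_suffix k hn).trans (List.suffix_cons _ _)
        rcases x with ⟨k', hk'⟩ | ⟨q, τ, t⟩
        · have h1 : X.lim k' hk' ∈ N (d :: res k n) ∅ := hxd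
          have h2 := N_anti hsuf (Finset.empty_subset _) h1
          exact h2
        · rw [pc_mem_N] at hxd ⊢
          refine ⟨hsuf.trans hxd.1, hxd.2.1, fun hτ => hxd.2.2 ?_⟩
          have h1 : τ ∈ kap (res k n) :=
            kap_anti ((List.suffix_cons _ _).trans hxd.1) hxd.2.1
          rcases hgz τ hτ h1 with h | h <;> simp [h]
    · refine ⟨Pc q τ {t | X.pc q τ t ∈ U}, Or.inl ⟨_, _, _, (isOpen_iff.mp hU).1 q τ, rfl⟩,
        ⟨t, hx, rfl⟩, ?_⟩
      rintro x ⟨s, hs, rfl⟩
      exact hs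

/-- There is a paracompact Hausdorff space without isolated points that has a base which is not the
union of two disjoint bases. -/
theorem result : ∃ (X : Type) (_ : TopologicalSpace X),
    T2Space X ∧ ParacompactSpace X ∧ (∀ x : X, ¬ IsOpen ({x} : Set X)) ∧
    ∃ 𝓑 : Set (Set X), TopologicalSpace.IsTopologicalBasis 𝓑 ∧
      ¬ ∃ 𝓑₀ 𝓑₁ : Set (Set X), 𝓑₀ ∪ 𝓑₁ = 𝓑 ∧ 𝓑₀ ∩ 𝓑₁ = ∅ ∧
        TopologicalSpace.IsTopologicalBasis 𝓑₀ ∧ TopologicalSpace.IsTopologicalBasis 𝓑₁ := by
  classical
  refine ⟨X, inferInstance, inferInstance, inferInstance, not_isOpen_singleton, Base, isBasis, ?_⟩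
  rintro ⟨𝓑₀, 𝓑₁, hun, hdis, hb0, hb1⟩
  obtain ⟨k, hk, w, hw, h⟩ := key (fun p η ξ => B p η ξ ∈ 𝓑₁)
  have hmem : X.lim k hk ∈ N [] {w} := by rw [lim_mem_N]; rfl
  -- a basic set between the branch and the neighbourhood avoiding `w`
  have main : ∀ V ∈ Base, X.lim k hk ∈ V → V ⊆ N [] {w} →
      ∃ n, ∃ z ∈ (k n).1, (w = Sum.inl z.1 ∨ w = Sum.inr z.2) ∧ V = B (res k n) z.1 z.2 := by
    rintro V (⟨q, τ, O, hO, rfl⟩ | ⟨p, η, ξ, rfl⟩) hkV hVN
    · obtain ⟨t, -, ht⟩ := hkV
      cases ht
    · obtain ⟨d, hd, hkd⟩ := hkV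
      rw [lim_mem_N, List.length_cons, res_succ] at hkd
      obtain ⟨h1, h2⟩ := List.cons.inj hkd
      refine ⟨p.length, (η, ξ), by rw [h1]; exact hd, ?_, by rw [h2]⟩
      by_contra hcon
      push Not at hcon
      have h3 : X.pc (res k (p.length + 1)) w 0 ∈ B p η ξ := by
        refine ⟨d, hd, ?_⟩
        rw [pc_mem_N, res_succ, h1, h2]
        refine ⟨List.suffix_refl _, ?_, ?_⟩
        · have := hw (p.length + 1)
          rwa [res_succ, h1, h2] at this
        · simp only [Finset.mem_insert, Finset.mem_singleton, not_or]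
          exact hcon
      have h4 := hVN h3
      rw [pc_mem_N] at h4
      exact h4.2.2 (Finset.mem_singleton_self w)
  rcases h with h | h
  · obtain ⟨V, hV, hkV, hVN⟩ := hb0.exists_subset_of_mem_open hmem (isOpen_N _ _)
    obtain ⟨n, z, hz, hwz, rfl⟩ := main V (hun ▸ Or.inl hV) hkV hVN
    have h1 := h n z hz hwz
    have h2 : B (res k n) z.1 z.2 ∈ 𝓑₀ ∩ 𝓑₁ := ⟨hV, h1⟩
    rw [hdis] at h2
    exact h2
  · obtain ⟨V, hV, hkV, hVN⟩ := hb1.exists_subset_of_mem_open hmem (isOpen_N _ _)
    obtain ⟨n, z, hz, hwz, rfl⟩ := main V (hun ▸ Or.inr hV) hkV hVN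
    exact h n z hz hwz hV

end Pool.Agent.Results.MP_bab9cd_gt.NotBaseResolvable
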